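import Pool.Agent.U722.FF.Stm3

/-!
# Project LI, package DIM: the dimension count for compatible families (helper869)
-/

set_option autoImplicit false

namespace Pool.Agent.U869.LIP

open U722.FF MulAction

section

variable {G V E : Type} [Group G] [MulAction G V] [MulAction G E]

theorem finite_quot (h : FinOrb G V) : Finite (orbitRel.Quotient G V) := by
  obtain ⟨S, hS⟩ := h
  have hsur : Function.Surjective
      (fun x : S => (Quotient.mk'' (x : V) : orbitRel.Quotient G V)) := by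
    intro q
    induction q using Quotient.inductionOn' with
    | _ y =>
      obtain ⟨g, x, hx, rfl⟩ := hS y
      refine ⟨⟨x, hx⟩, Quotient.sound' ?_⟩
      exact (orbitRel_apply (G := G)).2 ⟨g⁻¹, by simp⟩
  exact Finite.of_surjective _ hsur

/-- representatives of the orbits -/
noncomputable def rp (q : orbitRel.Quotient G V) : V := Quotient.out q

theorem mk_rp (q : orbitRel.Quotient G V) : (Quotient.mk'' (rp q) : orbitRel.Quotient G V) = q :=
  Quotient.out_eq q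

theorem ex_g (v : V) : ∃ g : G, g • rp (Quotient.mk'' v : orbitRel.Quotient G V) = v := by
  have h2 := Quotient.exact' (mk_rp (Quotient.mk'' v : orbitRel.Quotient G V))
  obtain ⟨g, hg⟩ := (orbitRel_apply (G := G)).1 h2
  exact ⟨g⁻¹, by rw [← hg]; simp⟩

variable (G) in
noncomputable def gv (v : V) : G := (ex_g (G := G) v).choose

theorem gv_spec (v : V) : gv G v • rp (Quotient.mk'' v : orbitRel.Quotient G V) = v :=
  (ex_g (G := G) v).choose_spec

theorem mk_smul (g : G) (v : V) :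
    (Quotient.mk'' (g • v) : orbitRel.Quotient G V) = Quotient.mk'' v :=
  Quotient.sound' ((orbitRel_apply (G := G)).2 ⟨g, rfl⟩)

open Classical in
/-- the function on the group given by the homomorphism of an orbit -/
noncomputable def FF (ψ : ∀ q : orbitRel.Quotient G V, Hq ↥(stabilizer G (rp q)))
    (q : orbitRel.Quotient G V) (a : G) : ℚ :=
  if h : a ∈ stabilizer G (rp q) then (ψ q).1 ⟨a, h⟩ else 0

variable (ψ ψ' : ∀ q : orbitRel.Quotient G V, Hq ↥(stabilizer G (rp q)))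

theorem FF_pos (q : orbitRel.Quotient G V) (a : G) (h : a ∈ stabilizer G (rp q)) :
    FF ψ q a = (ψ q).1 ⟨a, h⟩ := by
  rw [FF, dif_pos h]

theorem FF_mul (q : orbitRel.Quotient G V) (a b : G) (ha : a ∈ stabilizer G (rp q))
    (hb : b ∈ stabilizer G (rp q)) : FF ψ q (a * b) = FF ψ q a + FF ψ q b := by
  rw [FF_pos ψ q _ (mul_mem ha hb), FF_pos ψ q a ha, FF_pos ψ q b hb]
  exact (ψ q).2 ⟨a, ha⟩ ⟨b, hb⟩

theorem FF_one (q : orbitRel.Quotient G V) : FF ψ q 1 = 0 := by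
  have h := FF_mul ψ q 1 1 (one_mem _) (one_mem _)
  rw [mul_one] at h
  linarith

theorem FF_conj (q : orbitRel.Quotient G V) (a b : G) (ha : a ∈ stabilizer G (rp q))
    (hb : b ∈ stabilizer G (rp q)) : FF ψ q (b⁻¹ * a * b) = FF ψ q a := by
  have hb' : b⁻¹ ∈ stabilizer G (rp q) := inv_mem hb
  rw [FF_mul ψ q _ _ (mul_mem hb' ha) hb, FF_mul ψ q _ _ hb' ha]
  have h := FF_mul ψ q b⁻¹ b hb' hb
  rw [inv_mul_cancel, FF_one] at h
  linarith

theorem FF_add (q : orbitRel.Quotient G V) (a : G) :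
    FF (ψ + ψ') q a = FF ψ q a + FF ψ' q a := by
  unfold FF
  split_ifs with h
  · rfl
  · simp

theorem FF_smul (c : ℚ) (q : orbitRel.Quotient G V) (a : G) :
    FF (c • ψ) q a = c * FF ψ q a := by
  unfold FF
  split_ifs with h
  · rfl
  · simp

/-- the family -/
noncomputable def phi (v : V) (a : G) : ℚ :=
  FF ψ (Quotient.mk'' v) ((gv G v)⁻¹ * a * gv G v)

theorem mem_conj (v : V) (a : G) (h : a ∈ stabilizer G v) :
    (gv G v)⁻¹ * a * gv G v ∈ stabilizer G (rp (Quotient.mk'' v : orbitRel.Quotient G V)) := by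
  rw [mem_stabilizer_iff] at h ⊢
  rw [mul_smul, gv_spec, mul_smul, h, inv_smul_eq_iff, gv_spec]

theorem phi_hom (v : V) (a b : G) (ha : a ∈ stabilizer G v) (hb : b ∈ stabilizer G v) :
    phi ψ v (a * b) = phi ψ v a + phi ψ v b := by
  unfold phi
  rw [← FF_mul ψ _ _ _ (mem_conj v a ha) (mem_conj v b hb)]
  congr 1
  group

theorem phi_eqv (g : G) (v : V) (a : G) (ha : a ∈ stabilizer G v) :
    phi ψ (g • v) (g * a * g⁻¹) = phi ψ v a := by
  unfold phi
  have h1 : gv G (g • v) • rp (Quotient.mk'' v : orbitRel.Quotient G V) = g • v := by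
    have := gv_spec (G := G) (g • v)
    rwa [mk_smul] at this
  rw [mk_smul]
  have hb : (gv G v)⁻¹ * g⁻¹ * gv G (g • v) ∈
      stabilizer G (rp (Quotient.mk'' v : orbitRel.Quotient G V)) := by
    rw [mem_stabilizer_iff, mul_smul, h1, mul_smul, inv_smul_smul, inv_smul_eq_iff, gv_spec]
  rw [← FF_conj ψ _ _ _ (mem_conj v a ha) hb]
  congr 1
  group

theorem phi_add (v : V) (a : G) : phi (ψ + ψ') v a = phi ψ v a + phi ψ' v a := FF_add _ _ _ _

theorem phi_smul (c : ℚ) (v : V) (a : G) : phi (c • ψ) v a = c * phi ψ v a := FF_smul _ _ _ _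

variable (s t : E → V)

/-- the linear map to the homomorphisms on the stabilizers of edges -/
noncomputable def LL (hs : ∀ (g : G) (e : E), s (g • e) = g • s e)
    (ht : ∀ (g : G) (e : E), t (g • e) = g • t e) :
    (∀ q : orbitRel.Quotient G V, Hq ↥(stabilizer G (rp q))) →ₗ[ℚ]
      (∀ p : orbitRel.Quotient G E, Hq ↥(stabilizer G (rp p))) where
  toFun ψ p := ⟨fun a => phi ψ (s (rp p)) (a : G) - phi ψ (t (rp p)) (a : G), by
    rintro ⟨a, ha⟩ ⟨b, hb⟩
    have h1 : ∀ x ∈ stabilizer G (rp p), x ∈ stabilizer G (s (rp p)) := by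
      intro x hx
      rw [mem_stabilizer_iff] at hx ⊢
      rw [← hs, hx]
    have h2 : ∀ x ∈ stabilizer G (rp p), x ∈ stabilizer G (t (rp p)) := by
      intro x hx
      rw [mem_stabilizer_iff] at hx ⊢
      rw [← ht, hx]
    change phi ψ (s (rp p)) (a * b) - phi ψ (t (rp p)) (a * b) = _
    rw [phi_hom ψ _ a b (h1 a ha) (h1 b hb), phi_hom ψ _ a b (h2 a ha) (h2 b hb)]
    change _ = (phi ψ (s (rp p)) a - phi ψ (t (rp p)) a) + (phi ψ (s (rp p)) b - phi ψ (t (rp p)) b)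
    ring⟩
  map_add' := by
    intro ψ ψ'
    funext p
    apply Subtype.ext
    funext a
    change phi (ψ + ψ') _ _ - phi (ψ + ψ') _ _ = (phi ψ _ _ - phi ψ _ _) + (phi ψ' _ _ - phi ψ' _ _)
    rw [phi_add, phi_add]
    ring
  map_smul' := by
    intro c ψ
    funext p
    apply Subtype.ext
    funext a
    change phi (c • ψ) _ _ - phi (c • ψ) _ _ = c * (phi ψ _ _ - phi ψ _ _)
    rw [phi_smul, phi_smul]
    ring

theorem fam (hs : ∀ (g : G) (e : E), s (g • e) = g • s e)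
    (ht : ∀ (g : G) (e : E), t (g • e) = g • t e) (h : LL s t hs ht ψ = 0) :
    Fam G s t (phi ψ) := by
  refine ⟨fun v a ha b hb => phi_hom ψ v a b ha hb, fun g v a ha => phi_eqv ψ g v a ha, ?_⟩
  intro e a ha
  obtain ⟨p, g, hp⟩ : ∃ (p : orbitRel.Quotient G E) (g : G), g • rp p = e :=
    ⟨Quotient.mk'' e, gv G e, gv_spec e⟩
  have hb : g⁻¹ * a * g ∈ stabilizer G (rp p) := by
    rw [mem_stabilizer_iff] at ha ⊢
    rw [mul_smul, hp, mul_smul, ha, inv_smul_eq_iff, hp]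
  have h1 := congrArg (fun x : (∀ p : orbitRel.Quotient G E, Hq ↥(stabilizer G (rp p))) =>
    (x p).1 ⟨g⁻¹ * a * g, hb⟩) h
  change phi ψ (s (rp p)) (g⁻¹ * a * g) - phi ψ (t (rp p)) (g⁻¹ * a * g) = 0 at h1
  have h2 : g⁻¹ * a * g ∈ stabilizer G (s (rp p)) := by
    rw [mem_stabilizer_iff] at hb ⊢
    rw [← hs, hb]
  have h3 : g⁻¹ * a * g ∈ stabilizer G (t (rp p)) := by
    rw [mem_stabilizer_iff] at hb ⊢
    rw [← ht, hb]
  have h4 := phi_eqv ψ g (s (rp p)) _ h2
  have h5 := phi_eqv ψ g (t (rp p)) _ h3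
  have h6 : g * (g⁻¹ * a * g) * g⁻¹ = a := by group
  rw [h6, ← hs, hp] at h4
  rw [h6, ← ht, hp] at h5
  rw [h4, h5]
  linarith

theorem nonzero (h : ψ ≠ 0) : ∃ v, ∃ a ∈ stabilizer G v, phi ψ v a ≠ 0 := by
  obtain ⟨q, hq⟩ := Function.ne_iff.1 h
  have hq2 : (ψ q).1 ≠ 0 := fun h0 => hq (Subtype.ext h0)
  obtain ⟨⟨a, ha⟩, hne⟩ := Function.ne_iff.1 hq2
  have hmk : (Quotient.mk'' (rp q) : orbitRel.Quotient G V) = q := mk_rp q
  have hk : gv G (rp q) • rp q = rp q := by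
    have := gv_spec (G := G) (rp q)
    rwa [hmk] at this
  refine ⟨rp q, gv G (rp q) * a * (gv G (rp q))⁻¹, ?_, ?_⟩
  · have hk' : gv G (rp q) ∈ stabilizer G (rp q) := hk
    exact mul_mem (mul_mem hk' ha) (inv_mem hk')
  · unfold phi
    rw [hmk]
    have h1 : (gv G (rp q))⁻¹ * (gv G (rp q) * a * (gv G (rp q))⁻¹) * gv G (rp q) = a := by group
    rw [h1, FF_pos ψ q a ha]
    exact hne

/-- conjugate stabilizers -/
theorem conj_pos (v w : V) (g : G) (hg : g • w = v)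
    (hfin : Module.Finite ℚ (Hq ↥(stabilizer G w)))
    (h : 0 < Module.finrank ℚ (Hq ↥(stabilizer G v))) :
    0 < Module.finrank ℚ (Hq ↥(stabilizer G w)) := by
  have h1 : Nontrivial (Hq ↥(stabilizer G v)) := Module.nontrivial_of_finrank_pos h
  obtain ⟨f, hf⟩ := exists_ne (0 : Hq ↥(stabilizer G v))
  have hf2 : f.1 ≠ 0 := fun h0 => hf (Subtype.ext h0)
  obtain ⟨⟨a, ha⟩, hne⟩ := Function.ne_iff.1 hf2
  have hm : ∀ x ∈ stabilizer G w, g * x * g⁻¹ ∈ stabilizer G v := by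
    intro x hx
    rw [mem_stabilizer_iff] at hx ⊢
    rw [← hg, mul_smul, inv_smul_smul, mul_smul, hx]
  have hm' : g⁻¹ * a * g ∈ stabilizer G w := by
    rw [mem_stabilizer_iff] at ha ⊢
    rw [mul_smul, hg, mul_smul, ha, inv_smul_eq_iff, hg]
  let f' : Hq ↥(stabilizer G w) := ⟨fun x => f.1 ⟨g * x.1 * g⁻¹, hm x.1 x.2⟩, by
    rintro ⟨x, hx⟩ ⟨y, hy⟩
    have h2 := f.2 ⟨g * x * g⁻¹, hm x hx⟩ ⟨g * y * g⁻¹, hm y hy⟩
    have h3 : (⟨g * x * g⁻¹, hm x hx⟩ : ↥(stabilizer G v)) * ⟨g * y * g⁻¹, hm y hy⟩ =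
        ⟨g * (x * y) * g⁻¹, hm (x * y) (mul_mem hx hy)⟩ := by
      apply Subtype.ext
      change g * x * g⁻¹ * (g * y * g⁻¹) = g * (x * y) * g⁻¹
      group
    rw [h3] at h2
    exact h2⟩
  have hf' : f' ≠ 0 := by
    intro h0
    have h4 := congrArg (fun x : Hq ↥(stabilizer G w) => x.1 ⟨g⁻¹ * a * g, hm'⟩) h0
    change f.1 ⟨g * (g⁻¹ * a * g) * g⁻¹, _⟩ = 0 at h4
    have h5 : (⟨g * (g⁻¹ * a * g) * g⁻¹, hm _ hm'⟩ : ↥(stabilizer G v)) = ⟨a, ha⟩ :=
      Subtype.ext (by group)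
    rw [h5] at h4
    exact hne h4
  have h6 : Nontrivial (Hq ↥(stabilizer G w)) := ⟨f', 0, hf'⟩
  exact Module.finrank_pos

end

theorem t_DIM : S_DIM := by
  intro G V E _ _ _ s t hs ht hV hE hVf hEf r c hc hcr hle hr
  have i1 : Finite (orbitRel.Quotient G V) := finite_quot hV
  have i2 : Finite (orbitRel.Quotient G E) := finite_quot hE
  have i3 : Fintype (orbitRel.Quotient G V) := Fintype.ofFinite _
  have i4 : Fintype (orbitRel.Quotient G E) := Fintype.ofFinite _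
  have i5 : ∀ q : orbitRel.Quotient G V, Module.Finite ℚ (Hq ↥(stabilizer G (rp q))) :=
    fun q => hVf _
  have i6 : ∀ p : orbitRel.Quotient G E, Module.Finite ℚ (Hq ↥(stabilizer G (rp p))) :=
    fun p => hEf _
  have hlt : Module.finrank ℚ (∀ p : orbitRel.Quotient G E, Hq ↥(stabilizer G (rp p))) <
      Module.finrank ℚ (∀ q : orbitRel.Quotient G V, Hq ↥(stabilizer G (rp q))) := by
    rw [Module.finrank_pi_fintype, Module.finrank_pi_fintype]
    classical
    have h1 : ∑ p : orbitRel.Quotient G E, Module.finrank ℚ (Hq ↥(stabilizer G (rp p))) ≤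
        ∑ p : orbitRel.Quotient G E, Module.finrank ℚ (Hq ↥(stabilizer G (rp (c p)))) := by
      refine Finset.sum_le_sum fun p _ => hle _ _ ?_
      rw [mk_rp, mk_rp]
    have h2 : ∑ p : orbitRel.Quotient G E, Module.finrank ℚ (Hq ↥(stabilizer G (rp (c p)))) =
        ∑ q ∈ Finset.univ.image c, Module.finrank ℚ (Hq ↥(stabilizer G (rp q))) := by
      rw [Finset.sum_image (fun a _ b _ h => hc h)]
    have h3 : 0 < Module.finrank ℚ
        (Hq ↥(stabilizer G (rp (Quotient.mk'' r : orbitRel.Quotient G V)))) :=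
      conj_pos r _ (gv G r) (gv_spec r) (hVf _) hr
    have h4 : ∑ q ∈ Finset.univ.image c, Module.finrank ℚ (Hq ↥(stabilizer G (rp q))) <
        ∑ q : orbitRel.Quotient G V, Module.finrank ℚ (Hq ↥(stabilizer G (rp q))) := by
      refine Finset.sum_lt_sum_of_subset (Finset.subset_univ _) (Finset.mem_univ
        (Quotient.mk'' r : orbitRel.Quotient G V)) ?_ h3 (fun _ _ _ => Nat.zero_le _)
      simp only [Finset.mem_image, Finset.mem_univ, true_and, not_exists]
      exact fun p => hcr p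
    omega
  have hker := LinearMap.ker_ne_bot_of_finrank_lt (f := LL (G := G) s t hs ht) hlt
  obtain ⟨ψ, hψ, hne⟩ := (Submodule.ne_bot_iff _).1 hker
  exact ⟨phi ψ, fam ψ s t hs ht (LinearMap.mem_ker.1 hψ), nonzero ψ hne⟩

end Pool.Agent.U869.LIP
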